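import Mathlib
import Pool.Agent.H63.ZX.Zer

set_option autoImplicit false
set_option linter.unusedSectionVars false

/-!
# Pseudo-expectations for functions of parities (THEOREM ZX, general atoms)

The variable `i : Fin M` stands for the Boolean function `a i`. `FunCl`: the clauses of length at most `ℓ` in these variables which follow from
at most `ℓ` of the clauses in `Γ`. `pe_fun`: a linear functional `L` on the functions on the cube with a filtration `V` such that `L 1 = 1`, `L (g ^ 2) ≥ 0` in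
degrees `≤ D / 2`, `L g = 0` if `g` has degree at most `D` and vanishes where at most `ℓ` clauses in `Γ` are true, gives a pseudo-expectation of degree `2 K` for `FunCl`, if all
atoms have degree at most `k` and `2 K k ≤ D`.
-/

namespace Pool.H6.ZF

open Finset Classical Pool.H6.QL Pool.Agent.H55.QT Pool.H86.XP Pool.H63.ZX

/-- The clause `c` (a list of literals) is true at `x`. -/
def TrC {V : Type} (x : V → Bool) (c : List (V × Bool)) : Prop := ∃ l ∈ c, x l.1 = l.2

/-- The clauses of length at most `ℓ` in the variables `i : Fin M` (with the values `a i x`) which follow from at most `ℓ` clauses in `Γ`. -/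
def FunCl {n M : ℕ} (Γ : Set (List (Fin n × Bool))) (a : Fin M → (Fin n → Bool) → Bool) (ℓ : ℝ) : Set (List (Fin M × Bool)) :=
  {c | (c.length : ℝ) ≤ ℓ ∧ ∃ J : Finset (List (Fin n × Bool)), (J.card : ℝ) ≤ ℓ ∧ (∀ d ∈ J, d ∈ Γ) ∧
    ∀ x : Fin n → Bool, (∀ d ∈ J, TrC x d) → TrC (fun i => a i x) c}

/-- The Boolean function `f` is a function of at most `k` parities. -/
def OfPar {n : ℕ} (k : ℝ) (f : (Fin n → Bool) → Bool) : Prop :=
  ∃ Q : Finset (Finset (Fin n)), (Q.card : ℝ) ≤ k ∧ ∀ x y : Fin n → Bool, (∀ S ∈ Q, px x S = px y S) → f x = f y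

/-- The Boolean function `f` depends on at most `k` variables. -/
def OfVar {n : ℕ} (k : ℝ) (f : (Fin n → Bool) → Bool) : Prop :=
  ∃ S : Finset (Fin n), (S.card : ℝ) ≤ k ∧ ∀ x y : Fin n → Bool, (∀ v ∈ S, x v = y v) → f x = f y

variable {n M : ℕ}

/-- real functions on the cube -/
abbrev Fc (n : ℕ) : Type := (Fin n → Bool) → ℝ

/-- the value of a Boolean function: `1` for true -/
noncomputable def vl (f : (Fin n → Bool) → Bool) : Fc n := fun x => if f x = true then 1 else -1

theorem vl_sq (f : (Fin n → Bool) → Bool) : vl f * vl f = 1 := by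
  funext x
  simp only [vl, Pi.mul_apply, Pi.one_apply]
  split_ifs <;> norm_num

/-- the product of the values of the atoms in `U` -/
noncomputable def vU (a : Fin M → (Fin n → Bool) → Bool) (U : Finset (Fin M)) : Fc n := ∏ i ∈ U, vl (a i)

theorem vU_empty (a : Fin M → (Fin n → Bool) → Bool) : vU a ∅ = 1 := by
  simp [vU]

theorem vU_sd (a : Fin M → (Fin n → Bool) → Bool) (S T : Finset (Fin M)) : vU a (symmDiff S T) = vU a S * vU a T := by
  have e1 : symmDiff S T = (S \ T) ∪ (T \ S) := by
    ext x; simp [Finset.mem_symmDiff]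
  have e2 : Disjoint (S \ T) (T \ S) := by
    rw [Finset.disjoint_left]
    intro x hx hy
    simp only [Finset.mem_sdiff] at hx hy
    exact hx.2 hy.1
  have e3 : vU a S = vU a (S \ T) * vU a (S ∩ T) := by
    unfold vU
    rw [← Finset.prod_union (Finset.disjoint_sdiff_inter S T), Finset.sdiff_union_inter]
  have e4 : vU a T = vU a (T \ S) * vU a (S ∩ T) := by
    unfold vU
    rw [Finset.inter_comm S T, ← Finset.prod_union (Finset.disjoint_sdiff_inter T S), Finset.sdiff_union_inter]
  have e5 : vU a (S ∩ T) * vU a (S ∩ T) = 1 := by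
    unfold vU
    rw [← Finset.prod_mul_distrib]
    exact Finset.prod_eq_one fun i _ => vl_sq (a i)
  have e6 : vU a (symmDiff S T) = vU a (S \ T) * vU a (T \ S) := by
    rw [e1]
    unfold vU
    exact Finset.prod_union e2
  calc vU a (symmDiff S T) = vU a (S \ T) * vU a (T \ S) * 1 := by rw [e6, mul_one]
    _ = vU a (S \ T) * vU a (T \ S) * (vU a (S ∩ T) * vU a (S ∩ T)) := by rw [e5]
    _ = (vU a (S \ T) * vU a (S ∩ T)) * (vU a (T \ S) * vU a (S ∩ T)) := by ring
    _ = vU a S * vU a T := by rw [← e3, ← e4]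

theorem vU_one (a : Fin M → (Fin n → Bool) → Bool) (i : Fin M) : vU a {i} = vl (a i) := by
  simp [vU]

/-- the clause is false -/
noncomputable def fcl (a : Fin M → (Fin n → Bool) → Bool) : List (Fin M × Bool) → Fc n
  | [] => 1
  | l :: c => (1 / 2 : ℝ) • (fcl a c - Pool.H6.QL.sg l.2 • (vl (a l.1) * fcl a c))

theorem fcl_true (a : Fin M → (Fin n → Bool) → Bool) (c : List (Fin M × Bool)) {x : Fin n → Bool}
    (h : TrC (fun i => a i x) c) : fcl a c x = 0 := by
  induction c with
  | nil =>
    obtain ⟨l, hl, _⟩ := h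
    exact absurd hl List.not_mem_nil
  | cons l c ih =>
    rw [fcl]
    simp only [Pi.smul_apply, Pi.mul_apply, Pi.sub_apply, smul_eq_mul]
    by_cases h1 : a l.1 x = l.2
    · have h2 : Pool.H6.QL.sg l.2 * vl (a l.1) x = 1 := by
        unfold Pool.H6.QL.sg vl
        rw [h1]
        split_ifs <;> norm_num
      linear_combination (-(1 / 2 : ℝ) * fcl a c x) * h2
    · obtain ⟨l', hl', h2⟩ := h
      rw [List.mem_cons] at hl'
      rcases hl' with rfl | hl'
      · exact absurd h2 h1
      · rw [ih ⟨l', hl', h2⟩]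
        ring

theorem fcl_false (a : Fin M → (Fin n → Bool) → Bool) (c : List (Fin M × Bool)) {x : Fin n → Bool}
    (h : ¬ TrC (fun i => a i x) c) : fcl a c x = 1 := by
  induction c with
  | nil => rfl
  | cons l c ih =>
    have h1 : ¬ TrC (fun i => a i x) c := fun ⟨l', hl', h2⟩ => h ⟨l', List.mem_cons_of_mem _ hl', h2⟩
    have h2 : a l.1 x ≠ l.2 := fun h2 => h ⟨l, List.mem_cons_self, h2⟩
    rw [fcl]
    simp only [Pi.smul_apply, Pi.mul_apply, Pi.sub_apply, smul_eq_mul]
    rw [ih h1]
    have h3 : Pool.H6.QL.sg l.2 * vl (a l.1) x = -1 := by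
      unfold Pool.H6.QL.sg vl
      cases h4 : l.2 <;> cases h5 : a l.1 x
      · exact absurd (h5.trans h4.symm) h2
      · simp
      · simp
      · exact absurd (h5.trans h4.symm) h2
    linear_combination (-(1 / 2 : ℝ)) * h3

theorem fcl_step (a : Fin M → (Fin n → Bool) → Bool) (l : Fin M × Bool) (c : List (Fin M × Bool)) (U : Finset (Fin M)) :
    fcl a (l :: c) * vU a U = (1 / 2 : ℝ) • (fcl a c * vU a U - Pool.H6.QL.sg l.2 • (fcl a c * vU a (symmDiff U {l.1}))) := by
  rw [fcl, vU_sd, vU_one]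
  funext x
  simp only [Pi.smul_apply, Pi.mul_apply, Pi.sub_apply, smul_eq_mul]
  ring

theorem pe_eq (L : Fc n →ₗ[ℝ] ℝ) (a : Fin M → (Fin n → Bool) → Bool) (c : List (Fin M × Bool)) :
    ∀ U : Finset (Fin M), pe (fun U => L (vU a U)) c U = L (fcl a c * vU a U) := by
  induction c with
  | nil =>
    intro U
    rw [pe, fcl, one_mul]
  | cons l c ih =>
    intro U
    rw [pe, ih U, ih (symmDiff U {l.1}), fcl_step, map_smul, map_sub, map_smul, smul_eq_mul, smul_eq_mul]
    ring

theorem pe_fun {Γ : Set (List (Fin n × Bool))} (L : Fc n →ₗ[ℝ] ℝ) (V : ℕ → Submodule ℝ (Fc n)) {D k K : ℕ} {ℓ : ℝ}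
    (hmono : Monotone V) (hone : (1 : Fc n) ∈ V 0) (hmul : ∀ i j, ∀ g ∈ V i, ∀ h ∈ V j, g * h ∈ V (i + j))
    (hL : L 1 = 1) (hpos : ∀ d, 2 * d ≤ D → ∀ g ∈ V d, 0 ≤ L (g * g))
    (hzero : ∀ J : Finset (List (Fin n × Bool)), (J.card : ℝ) ≤ ℓ → (∀ d ∈ J, d ∈ Γ) → ∀ g ∈ V D,
      (∀ x : Fin n → Bool, (∀ d ∈ J, TrC x d) → g x = 0) → L g = 0)
    {a : Fin M → (Fin n → Bool) → Bool} (ha : ∀ i, vl (a i) ∈ V k) (hK : 2 * K * k ≤ D) :
    PE M K (FunCl Γ a ℓ) := by
  have hU : ∀ U : Finset (Fin M), vU a U ∈ V (U.card * k) := by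
    intro U
    induction U using Finset.induction_on with
    | empty =>
      rw [vU_empty, Finset.card_empty, Nat.zero_mul]
      exact hone
    | insert i U hi ih =>
      have h1 : vU a (insert i U) = vl (a i) * vU a U := by
        unfold vU
        rw [Finset.prod_insert hi]
      rw [h1, Finset.card_insert_of_notMem hi]
      have h2 := hmul k (U.card * k) _ (ha i) _ ih
      have h3 : k + U.card * k = (U.card + 1) * k := by ring
      rwa [h3] at h2
  have hcU : ∀ (c : List (Fin M × Bool)) (U : Finset (Fin M)), fcl a c * vU a U ∈ V ((U.card + c.length) * k) := by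
    intro c
    induction c with
    | nil =>
      intro U
      rw [fcl, one_mul, List.length_nil, Nat.add_zero]
      exact hU U
    | cons l c ih =>
      intro U
      rw [fcl_step, List.length_cons]
      refine Submodule.smul_mem _ _ (Submodule.sub_mem _ ?_ (Submodule.smul_mem _ _ ?_))
      · exact hmono (Nat.mul_le_mul_right _ (by omega)) (ih U)
      · refine hmono (Nat.mul_le_mul_right _ ?_) (ih (symmDiff U {l.1}))
        have h2 := zcard_sd_le U {l.1}
        rw [Finset.card_singleton] at h2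
        omega
  refine ⟨fun U => L (vU a U), ?_, ?_, ?_⟩
  · show L (vU a ∅) = 1
    rw [vU_empty, hL]
  · intro p hp
    obtain ⟨g, hg⟩ : ∃ g : Fc n, g = ∑ S, p S • vU a S := ⟨_, rfl⟩
    have h1 : ∑ S, ∑ T, p S * p T * L (vU a (symmDiff S T)) = L (g * g) := by
      rw [hg, Finset.sum_mul_sum, map_sum]
      refine Finset.sum_congr rfl fun S _ => ?_
      rw [map_sum]
      refine Finset.sum_congr rfl fun T _ => ?_
      rw [vU_sd, smul_mul_smul_comm, map_smul, smul_eq_mul]
    have h2 : g ∈ V (K * k) := by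
      rw [hg]
      refine Submodule.sum_mem _ fun S _ => ?_
      by_cases hS : K < S.card
      · rw [hp S hS, zero_smul]
        exact Submodule.zero_mem _
      · exact Submodule.smul_mem _ _ (hmono (Nat.mul_le_mul_right _ (not_lt.1 hS)) (hU S))
    have h3 := hpos (K * k) (by rw [← mul_assoc]; exact hK) g h2
    rw [← h1] at h3
    refine h3.trans (le_of_eq ?_)
    refine Finset.sum_congr rfl fun S _ => Finset.sum_congr rfl fun T _ => ?_
    congr 3
  · intro c hc U hUc
    obtain ⟨_, J, hJ, hJΓ, hJc⟩ := hc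
    rw [pe_eq]
    refine hzero J hJ hJΓ _ (hmono ?_ (hcU c U)) fun x hx => ?_
    · exact (Nat.mul_le_mul_right k hUc).trans hK
    · rw [Pi.mul_apply, fcl_true a c (hJc x hx), zero_mul]

end Pool.H6.ZF
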