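import Mathlib
import Pool.Agent.H63.ZS.Ex
import Pool.Agent.H63.ZS.Stm3

set_option autoImplicit false
set_option linter.unusedSectionVars false

/-!
# The lower bounds with a lower bound for the size of the lines (definition for the final statement)
-/

namespace Pool.H6.QL

open Finset Classical Pool.Agent.H3.Frg Pool.Agent.H3.Frg2 Pool.Agent.H3.Frg4 Pool.Agent.H81.QG

/-- Lower bounds for all systems with modus ponens and sound axiom schemes with at most `K ^ δ` symbols; the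
axioms are the clauses in `Γ`. The number of occurrences of variables is the size of a formula.
(1) A refutation on a blackboard with total space `S` and `T` steps has `S log₂ T ≥ K ^ (2 - e)`.
(2) A refutation with lines of size at most `s` and total size `Z` has `s ≥ K ^ (1 - e)` and `Z s ≥ K ^ (4 - e)`.
(3) So does a proof of the negation of a conjunction of clauses in `Γ`.
(4) A tree-like refutation with `N` lines of size at most `s` has `s log₂ N ≥ K ^ (2 - e)`.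
(5) A refutation of height `h` with lines of size at most `s` has `s (h + 1) ≥ K ^ (2 - e)`. -/
def Hard4 {V : Type} (Γ : Set (List (V × Bool))) (K e δ : ℝ) : Prop :=
  ∀ Sch : Set (Fm ℕ), (∀ ψ ∈ Sch, (ψ.len : ℝ) ≤ K ^ δ ∧ ∀ x : ℕ → Bool, ψ.eval x = true) →
    (∀ (S T : ℕ) (M : ℕ → Finset (Fm V)), BB Sch (Cls Γ) S T M →
      (∃ A ∈ M T, Fm.neg A ∈ M T) → K ^ (2 - e) ≤ S * Real.logb 2 T) ∧
    (∀ (s L : ℕ) (pf : Fin L → Fm V), IsDer Sch (Cls Γ) pf → (∀ i, (pf i).leaves ≤ s) →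
      (∃ i j, pf i = Fm.neg (pf j)) →
      K ^ (1 - e) ≤ s ∧ K ^ (4 - e) ≤ ((∑ i, (pf i).leaves : ℕ) : ℝ) * s) ∧
    (∀ (A : Fm V) (l : List (Fm V)), A ∈ Cls Γ → (∀ B ∈ l, B ∈ Cls Γ) →
      ∀ (s L : ℕ) (pf : Fin L → Fm V), IsDer Sch ∅ pf → (∀ i, (pf i).leaves ≤ s) →
      (∃ i, pf i = Fm.neg (cnj A l)) →
      K ^ (1 - e) ≤ s ∧ K ^ (4 - e) ≤ ((∑ i, (pf i).leaves : ℕ) : ℝ) * s) ∧
    (∀ (s N N' : ℕ) (A : Fm V), TD Sch (Cls Γ) s N A → TD Sch (Cls Γ) s N' (Fm.neg A) →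
      K ^ (2 - e) ≤ s * Real.logb 2 (N + N')) ∧
    (∀ (s h : ℕ) (A : Fm V), HD Sch (Cls Γ) s h A → HD Sch (Cls Γ) s h (Fm.neg A) →
      K ^ (2 - e) ≤ s * (h + 1))

/-- `Hard3` and a pseudo-expectation of degree `2 K`, `K ≥ 4 N ^ (1 - e)`, give `Hard4`. -/
theorem hard34 {n K : ℕ} {Γ : Set (List (Fin n × Bool))} {N e δ : ℝ} (hPE : PE n K Γ) (hΓ : ∀ c ∈ Γ, c.length ≤ K)
    (hK : 4 * N ^ (1 - e) ≤ K) (h : Hard3 Γ N e δ) : Hard4 Γ N e δ := by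
  intro Sch hSch
  obtain ⟨h1, h2, h3, h4, h5⟩ := h Sch hSch
  have key : ∀ s : ℕ, ¬ N ^ (1 - e) ≤ (s : ℝ) → 4 * s ≤ K := by
    intro s hs
    push Not at hs
    have h6 : (4 : ℝ) * s ≤ K := by linarith
    exact_mod_cast h6
  refine ⟨h1, fun s L pf hpf hs hij => ⟨?_, h2 s L pf hpf hs hij⟩, fun A l hA hl s L pf hpf hs hi =>
    ⟨?_, h3 A l hA hl s L pf hpf hs hi⟩, h4, h5⟩
  · by_contra hlt
    exact Pool.H63.ZS.exact_ref hPE hΓ (fun ψ hψ => (hSch ψ hψ).2) hpf hs (key s hlt) hij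
  · by_contra hlt
    exact Pool.H63.ZS.exact_taut hPE hΓ (fun ψ hψ => (hSch ψ hψ).2) hA hl hpf hs (key s hlt) hi

theorem hard4_mono {V : Type} {Γ : Set (List (V × Bool))} {K N e' δ' e δ : ℝ}
    (h : Hard4 Γ K e' δ') (h1 : N ^ δ ≤ K ^ δ') (h2 : N ^ (2 - e) ≤ K ^ (2 - e'))
    (h3 : N ^ (4 - e) ≤ K ^ (4 - e')) (h4 : N ^ (1 - e) ≤ K ^ (1 - e')) : Hard4 Γ N e δ := by
  intro Sch hSch
  obtain ⟨a1, a2, a3, a4, a5⟩ := h Sch fun ψ hψ => ⟨(hSch ψ hψ).1.trans h1, (hSch ψ hψ).2⟩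
  exact ⟨fun S T M hM hA => h2.trans (a1 S T M hM hA),
    fun s L pf hpf hs hij => ⟨h4.trans (a2 s L pf hpf hs hij).1, h3.trans (a2 s L pf hpf hs hij).2⟩,
    fun A l hA hl s L pf hpf hs hi => ⟨h4.trans (a3 A l hA hl s L pf hpf hs hi).1, h3.trans (a3 A l hA hl s L pf hpf hs hi).2⟩,
    fun s N1 N2 A hN1 hN2 => h2.trans (a4 s N1 N2 A hN1 hN2),
    fun s hh A hA hnA => h2.trans (a5 s hh A hA hnA)⟩

end Pool.H6.QL
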