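import Mathlib
import Pool.Agent.H6.ZF.Fun

set_option autoImplicit false
set_option linter.unusedSectionVars false

/-!
# A function of `k` tests of degree `1` has degree at most `k`
-/

namespace Pool.H6.ZF

open Finset Classical Pool.H6.QL Pool.Agent.H55.QT Pool.H86.XP Pool.H63.ZX

variable {n : ℕ}

theorem fun_mem {ι : Type} (V : ℕ → Submodule ℝ (Fc n)) (hmono : Monotone V) (hone : (1 : Fc n) ∈ V 0)
    (hmul : ∀ i j, ∀ g ∈ V i, ∀ h ∈ V j, g * h ∈ V (i + j)) (t : ι → (Fin n → Bool) → Bool)
    (ht : ∀ i, vl (t i) ∈ V 1) (I : Finset ι) : ∀ g : Fc n,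
      (∀ x y, (∀ i ∈ I, t i x = t i y) → g x = g y) → g ∈ V I.card := by
  induction I using Finset.induction_on with
  | empty =>
    intro g hg
    have h1 : g = g (fun _ => false) • (1 : Fc n) := by
      funext x
      rw [Pi.smul_apply, Pi.one_apply, smul_eq_mul, mul_one]
      exact hg x _ fun i hi => absurd hi (Finset.notMem_empty i)
    rw [h1]
    exact Submodule.smul_mem _ _ hone
  | insert j I hj ih =>
    intro g hg
    obtain ⟨G, hG⟩ : ∃ G : Bool → Fc n, G = fun b x => if h : ∃ y, (∀ i ∈ I, t i y = t i x) ∧ t j y = b then g h.choose else 0 :=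
      ⟨_, rfl⟩
    have hGI : ∀ b, G b ∈ V I.card := by
      intro b
      refine ih (G b) fun x y hxy => ?_
      rw [hG]
      show (if h : ∃ z, (∀ i ∈ I, t i z = t i x) ∧ t j z = b then g h.choose else 0) =
        if h : ∃ z, (∀ i ∈ I, t i z = t i y) ∧ t j z = b then g h.choose else 0
      by_cases h1 : ∃ z, (∀ i ∈ I, t i z = t i x) ∧ t j z = b
      · have h2 : ∃ z, (∀ i ∈ I, t i z = t i y) ∧ t j z = b := by
          obtain ⟨z, hz, hzb⟩ := h1
          exact ⟨z, fun i hi => (hz i hi).trans (hxy i hi), hzb⟩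
        rw [dif_pos h1, dif_pos h2]
        refine hg _ _ fun i hi => ?_
        have a1 := h1.choose_spec
        have a2 := h2.choose_spec
        rw [Finset.mem_insert] at hi
        rcases hi with rfl | hi
        · rw [a1.2, a2.2]
        · rw [a1.1 i hi, a2.1 i hi, hxy i hi]
      · have h2 : ¬ ∃ z, (∀ i ∈ I, t i z = t i y) ∧ t j z = b := by
          rintro ⟨z, hz, hzb⟩
          exact h1 ⟨z, fun i hi => (hz i hi).trans (hxy i hi).symm, hzb⟩
        rw [dif_neg h1, dif_neg h2]
    have hGx : ∀ x, G (t j x) x = g x := by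
      intro x
      rw [hG]
      show (if h : ∃ z, (∀ i ∈ I, t i z = t i x) ∧ t j z = t j x then g h.choose else 0) = g x
      have h1 : ∃ z, (∀ i ∈ I, t i z = t i x) ∧ t j z = t j x := ⟨x, fun i _ => rfl, rfl⟩
      rw [dif_pos h1]
      refine hg _ _ fun i hi => ?_
      have a1 := h1.choose_spec
      rw [Finset.mem_insert] at hi
      rcases hi with rfl | hi
      · exact a1.2
      · exact a1.1 i hi
    have h1 : g = (1 / 2 : ℝ) • (G true + G false + vl (t j) * (G true - G false)) := by
      funext x
      have h2 := hGx x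
      simp only [Pi.smul_apply, Pi.add_apply, Pi.mul_apply, Pi.sub_apply, smul_eq_mul]
      cases h3 : t j x with
      | false =>
        rw [h3] at h2
        have h4 : vl (t j) x = -1 := by simp [vl, h3]
        rw [h4, ← h2]
        ring
      | true =>
        rw [h3] at h2
        have h4 : vl (t j) x = 1 := by simp [vl, h3]
        rw [h4, ← h2]
        ring
    rw [h1, Finset.card_insert_of_notMem hj]
    have h3 := hmul 1 I.card _ (ht j) _ (Submodule.sub_mem _ (hGI true) (hGI false))
    rw [Nat.add_comm] at h3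
    exact Submodule.smul_mem _ _ (Submodule.add_mem _
      (hmono (Nat.le_succ _) (Submodule.add_mem _ (hGI true) (hGI false))) h3)

end Pool.H6.ZF
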