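import Mathlib
import Pool.Agent.H6.ZF.Mem

set_option autoImplicit false
set_option linter.unusedSectionVars false

/-!
# Functions of parities: the filtration by the number of parities
-/

namespace Pool.H6.ZF

open Finset Classical Pool.H6.QL Pool.Agent.H55.QT Pool.H86.XP Pool.H63.ZX

variable {n m N M : ℕ}

theorem vp_mono (P : Fin N → Finset (Fin n)) : Monotone fun d => zQ d 0 P := by
  intro i j hij
  refine Submodule.span_mono ?_
  rintro f ⟨S, U, hU, hS, rfl⟩
  exact ⟨S, U, hU.trans hij, hS, rfl⟩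

theorem vp_mem (P : Fin N → Finset (Fin n)) {d : ℕ} {U : Finset (Fin N)} (hU : U.card ≤ d) : ch (par P U) ∈ zQ d 0 P := by
  refine Submodule.subset_span ⟨par P U, U, hU, ?_, rfl⟩
  rw [symmDiff_self]
  exact Nat.zero_le _

theorem vp_one (P : Fin N → Finset (Fin n)) : (1 : Fc n) ∈ zQ 0 0 P := by
  have h1 := vp_mem P (d := 0) (U := ∅) (by rw [Finset.card_empty])
  rwa [par_empty', ch_empty] at h1

private theorem vp_eq {P : Fin N → Finset (Fin n)} {S : Finset (Fin n)} {U : Finset (Fin N)}
    (h : (symmDiff S (par P U)).card ≤ 0) : S = par P U := by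
  have h1 : symmDiff S (par P U) = ∅ := Finset.card_eq_zero.1 (Nat.le_zero.1 h)
  exact symmDiff_eq_bot.1 h1

theorem vp_mul (P : Fin N → Finset (Fin n)) (i j : ℕ) (g : Fc n) (hg : g ∈ zQ i 0 P) (h : Fc n) (hh : h ∈ zQ j 0 P) :
    g * h ∈ zQ (i + j) 0 P := by
  unfold zQ at hg
  induction hg using Submodule.span_induction with
  | mem f hf =>
    obtain ⟨S, U, hU, hS, rfl⟩ := hf
    have hS' := vp_eq hS
    subst hS'
    unfold zQ at hh
    induction hh using Submodule.span_induction with
    | mem f hf =>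
      obtain ⟨T, W, hW, hT, rfl⟩ := hf
      have hT' := vp_eq hT
      subst hT'
      rw [ch_mul, ← par_symm]
      refine vp_mem P ?_
      have := zcard_sd_le U W
      omega
    | zero =>
      rw [mul_zero]
      exact Submodule.zero_mem _
    | add f g _ _ hf hg =>
      rw [mul_add]
      exact Submodule.add_mem _ hf hg
    | smul c f _ hf =>
      rw [mul_smul_comm]
      exact Submodule.smul_mem _ _ hf
  | zero =>
    rw [zero_mul]
    exact Submodule.zero_mem _
  | add f g _ _ hf hg =>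
    rw [add_mul]
    exact Submodule.add_mem _ hf hg
  | smul c f _ hf =>
    rw [smul_mul_assoc]
    exact Submodule.smul_mem _ _ hf

theorem vp_rep (P : Fin N → Finset (Fin n)) {d : ℕ} {g : Fc n} (hg : g ∈ zQ d 0 P) :
    ∃ p : Finset (Fin N) → ℝ, (∀ S, d < S.card → p S = 0) ∧ g = ∑ S, p S • zXU P S := by
  unfold zQ at hg
  induction hg using Submodule.span_induction with
  | mem f hf =>
    obtain ⟨S, U, hU, hS, rfl⟩ := hf
    have hS' := vp_eq hS
    subst hS'
    refine ⟨fun S => if S = U then (-1) ^ U.card else 0, fun S hS => ?_, ?_⟩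
    · show (if S = U then (-1 : ℝ) ^ U.card else 0) = 0
      rw [if_neg]
      rintro rfl
      omega
    · rw [Finset.sum_eq_single U]
      · show _ = (if U = U then (-1 : ℝ) ^ U.card else 0) • zXU P U
        rw [if_pos rfl]
        unfold zXU
        rw [smul_smul, ← mul_pow]
        norm_num
      · intro S _ hS
        show (if S = U then (-1 : ℝ) ^ U.card else 0) • zXU P S = 0
        rw [if_neg hS, zero_smul]
      · intro h
        exact absurd (Finset.mem_univ U) h
  | zero => exact ⟨fun _ => 0, fun _ _ => rfl, by simp⟩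
  | add f g _ _ hf hg =>
    obtain ⟨p, hp, rfl⟩ := hf
    obtain ⟨p', hp', rfl⟩ := hg
    refine ⟨fun S => p S + p' S, fun S hS => by show p S + p' S = 0; rw [hp S hS, hp' S hS, add_zero], ?_⟩
    rw [← Finset.sum_add_distrib]
    refine Finset.sum_congr rfl fun S _ => ?_
    rw [add_smul]
  | smul c f _ hf =>
    obtain ⟨p, hp, rfl⟩ := hf
    refine ⟨fun S => c * p S, fun S hS => by show c * p S = 0; rw [hp S hS, mul_zero], ?_⟩
    rw [Finset.smul_sum]
    refine Finset.sum_congr rfl fun S _ => ?_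
    rw [smul_smul]

private theorem zXU_mul (P : Fin N → Finset (Fin n)) (S T : Finset (Fin N)) :
    zXU P S * zXU P T = zXU P (symmDiff S T) := by
  unfold zXU
  rw [par_symm, ← ch_mul, smul_mul_smul_comm]
  congr 1
  have h1 : (symmDiff S T).card + 2 * (S ∩ T).card = S.card + T.card := by
    have h3 : symmDiff S T = (S \ T) ∪ (T \ S) := by
      ext x; simp [Finset.mem_symmDiff]
    have h4 : Disjoint (S \ T) (T \ S) := by
      rw [Finset.disjoint_left]
      intro x hx hy
      simp only [Finset.mem_sdiff] at hx hy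
      exact hx.2 hy.1
    have h5 : (S \ T).card + (S ∩ T).card = S.card := Finset.card_sdiff_add_card_inter S T
    have h6 : (T \ S).card + (T ∩ S).card = T.card := Finset.card_sdiff_add_card_inter T S
    rw [Finset.inter_comm T S] at h6
    rw [h3, Finset.card_union_of_disjoint h4]
    omega
  rw [← pow_add, ← h1, pow_add, pow_mul]
  norm_num

/-- positivity on the span, from positivity on the coefficients -/
theorem vp_pos (P : Fin N → Finset (Fin n)) (E : Finset (Fin n) → ℝ) {d : ℕ}
    (hp : ∀ p : Finset (Fin N) → ℝ, (∀ S, d < S.card → p S = 0) →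
      0 ≤ ∑ S, ∑ T, p S * p T * ((-1) ^ (symmDiff S T).card * E (par P (symmDiff S T)))) {g : Fc n} (hg : g ∈ zQ d 0 P) :
    0 ≤ zL E (g * g) := by
  obtain ⟨p, hp0, rfl⟩ := vp_rep P hg
  have h1 : zL E ((∑ S, p S • zXU P S) * ∑ S, p S • zXU P S) =
      ∑ S, ∑ T, p S * p T * ((-1) ^ (symmDiff S T).card * E (par P (symmDiff S T))) := by
    rw [Finset.sum_mul_sum, map_sum]
    refine Finset.sum_congr rfl fun S _ => ?_
    rw [map_sum]
    refine Finset.sum_congr rfl fun T _ => ?_
    rw [smul_mul_smul_comm, zXU_mul, map_smul, smul_eq_mul]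
    unfold zXU
    rw [map_smul, zL_ch, smul_eq_mul]
  rw [h1]
  exact hp p hp0

theorem vl_par (P : Fin N → Finset (Fin n)) (i : Fin N) : vl (fun x => px x (P i)) ∈ zQ 1 0 P := by
  have h1 : vl (fun x => px x (P i)) = (-1 : ℝ) • ch (par P {i}) := by
    have h2 : par P {i} = P i := by
      ext x
      simp only [par, Finset.mem_filter, Finset.mem_univ, true_and, Finset.filter_singleton]
      by_cases hx : x ∈ P i
      · simp [hx]
      · simp [hx]
    rw [h2, ← zX_eq]
    rfl
  rw [h1]
  exact Submodule.smul_mem _ _ (vp_mem P (by rw [Finset.card_singleton]))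

theorem vp_fun (P : Fin N → Finset (Fin n)) {I : Finset (Fin N)} {k : ℕ} (hI : I.card ≤ k) {f : (Fin n → Bool) → Bool}
    (hf : ∀ x y, (∀ i ∈ I, px x (P i) = px y (P i)) → f x = f y) : vl f ∈ zQ k 0 P := by
  refine vp_mono P hI ?_
  refine fun_mem (fun d => zQ d 0 P) (vp_mono P) (vp_one P) (vp_mul P) (fun i x => px x (P i)) (vl_par P) I (vl f)
    fun x y hxy => ?_
  unfold vl
  rw [hf x y hxy]

private theorem tr_clist {x : Fin n → Bool} {c : Cl n} : TrC x (clist c) ↔ ∃ i, x (c.1 i) = c.2 i := by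
  unfold TrC clist
  constructor
  · rintro ⟨l, hl, h⟩
    simp only [List.mem_cons, List.not_mem_nil, or_false] at hl
    rcases hl with rfl | rfl | rfl
    · exact ⟨0, h⟩
    · exact ⟨1, h⟩
    · exact ⟨2, h⟩
  · rintro ⟨i, hi⟩
    fin_cases i
    · exact ⟨(c.1 0, c.2 0), by simp, hi⟩
    · exact ⟨(c.1 1, c.2 1), by simp, hi⟩
    · exact ⟨(c.1 2, c.2 2), by simp, hi⟩

/-- Functions of at most `k` of the parities `P`. -/
theorem fun_pe {B : Fin m → Finset (Fin n)} {s : Fin m → ℝ} {r D q : ℕ} {P : Fin N → Finset (Fin n)}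
    (h : Wo B s r D q P) {φ : Fin m → Cl n} (hB : ∀ j, B j ⊆ cvar (φ j)) (hs : ∀ j, s j = sS (φ j) (B j)) {ℓ : ℝ}
    {k K : ℕ} (hq : 3 * (ℓ + 1) ≤ q) (hK : 2 * K * k ≤ D) {a : Fin M → (Fin n → Bool) → Bool}
    (ha : ∀ i, ∃ I : Finset (Fin N), I.card ≤ k ∧ ∀ x y, (∀ j ∈ I, px x (P j) = px y (P j)) → a i x = a i y) :
    PE M K (FunCl {l | ∃ j, l = clist (φ j)} a ℓ) := by
  have hxg := zE_xg h
  refine pe_fun (zL (xE B s r)) (fun d => zQ d 0 P) (D := D) (k := k) (vp_mono P) (vp_one P) (vp_mul P) ?_ ?_ ?_ ?_ hK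
  · rw [← ch_empty, zL_ch]
    have h1 := hxg.one
    unfold zE at h1
    rwa [Finset.card_empty, pow_zero, one_mul, par_empty'] at h1
  · intro d hd g hg
    refine vp_pos P (xE B s r) (d := d) (fun p hp => ?_) hg
    have h1 := XG.pos hxg hd p hp
    exact h1
  · intro J hJ hJΓ g hg hg0
    have h1 : ∀ d : List (Fin n × Bool), ∃ j : Option (Fin m), d ∈ J → ∃ j', j = some j' ∧ d = clist (φ j') := by
      intro d
      by_cases hd : d ∈ J
      · obtain ⟨j, hj⟩ := hJΓ d hd
        exact ⟨some j, fun _ => ⟨j, rfl, hj⟩⟩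
      · exact ⟨none, fun h2 => absurd h2 hd⟩
    choose F hF using h1
    obtain ⟨J', hJ'⟩ : ∃ J' : Finset (Fin m), J' = univ.filter fun j => ∃ d ∈ J, F d = some j := ⟨_, rfl⟩
    have hcard : J'.card ≤ J.card := by
      have h2 : J'.map ⟨some, Option.some_injective _⟩ ⊆ J.image F := by
        intro o ho
        rw [Finset.mem_map] at ho
        obtain ⟨j, hj, rfl⟩ := ho
        rw [hJ', Finset.mem_filter] at hj
        obtain ⟨_, d, hd, hdj⟩ := hj
        exact Finset.mem_image.2 ⟨d, hd, hdj⟩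
      have h3 := Finset.card_le_card h2
      rw [Finset.card_map] at h3
      exact h3.trans Finset.card_image_le
    have hJr : 3 * (J'.card + 1) ≤ q := by
      have h4 : (J'.card : ℝ) ≤ ℓ := le_trans (by exact_mod_cast hcard) hJ
      have h5 : (3 : ℝ) * ((J'.card : ℝ) + 1) ≤ q := by linarith
      exact_mod_cast h5
    refine zL_zero h hB hs J' 0 (by omega) g hg fun x hx => hg0 x fun d hd => ?_
    obtain ⟨j, hj, hdj⟩ := hF d hd
    rw [hdj, tr_clist]
    exact hx j (by rw [hJ', Finset.mem_filter]; exact ⟨Finset.mem_univ _, d, hd, hj⟩)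
  · intro i
    obtain ⟨I, hI, hf⟩ := ha i
    exact vp_fun P hI hf

end Pool.H6.ZF
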